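import Pool.Agent.R218.Bohr.Lower

/-!
# The Bohr radius for harmonic mappings with bounded dilatation ratio

`HarmClass`, `supNorm`, `bohrSum` and `rK` are defined in `Pool/Agent/R218/Bohr/Upper.lean`, and
`coef f n` (the `n`-th Taylor coefficient of `f` at the origin) in `Pool/Agent/R218/Bohr/PS.lean`.
The class of the problem for the parameter `K` is `HarmClass ((K - 1) / (K + 1))`.
-/

namespace Pool.Agent.Results.MP_8fe0b8_an.BohrRadius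

open Metric Pool.Agent.R218.Bohr

/-- The definitions unfolded. -/
theorem defs_unfolded (k K r : ℝ) (h g : ℂ → ℂ) :
    (HarmClass k h g ↔ DifferentiableOn ℂ h (ball 0 1) ∧ DifferentiableOn ℂ g (ball 0 1) ∧
      h 0 = 0 ∧ g 0 = 0 ∧ BddAbove ((fun z => ‖h z‖) '' ball (0:ℂ) 1) ∧
      ∀ z ∈ ball (0:ℂ) 1, ‖deriv g z‖ ≤ k * ‖deriv h z‖) ∧
    supNorm h = sSup ((fun z => ‖h z‖) '' ball (0:ℂ) 1) ∧
    bohrSum h g r = ∑' n : ℕ, ENNReal.ofReal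
      ((‖iteratedDeriv (n + 1) h 0 / ((n + 1).factorial : ℂ)‖
        + ‖iteratedDeriv (n + 1) g 0 / ((n + 1).factorial : ℂ)‖) * r ^ (n + 1)) ∧
    rK K = (1 / 4) * Real.sqrt (7 / 2 - 1 / (2 * K ^ 2) + 5 / K) :=
  ⟨⟨fun H => ⟨H.1, H.2, H.3, H.4, H.5, H.6⟩, fun H =>
    ⟨H.1, H.2.1, H.2.2.1, H.2.2.2.1, H.2.2.2.2.1, H.2.2.2.2.2⟩⟩, rfl, rfl, rfl⟩

/-- For every `K > 1` the Bohr radius of the class is exactly `rK K`. -/
theorem result : ∀ K : ℝ, 1 < K →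
    (∀ h g : ℂ → ℂ, HarmClass ((K - 1) / (K + 1)) h g → ∀ r : ℝ, 0 ≤ r → r ≤ rK K →
      bohrSum h g r ≤ ENNReal.ofReal (supNorm h)) ∧
    (∀ r : ℝ, rK K < r → ∃ h g : ℂ → ℂ, HarmClass ((K - 1) / (K + 1)) h g ∧
      ENNReal.ofReal (supNorm h) < bohrSum h g r) :=
  fun _ hK => ⟨fun _ _ H _ hr0 hr => upper hK H hr0 hr, fun _ hr => lower hK hr⟩

end Pool.Agent.Results.MP_8fe0b8_an.BohrRadius
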